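import Pool.Agent.KDT.StmtsK

set_option autoImplicit false

/-!
# Squad KDT (MP_160b6c_nt), row KFN: the general part of the assembly (also used by row KSF of KDS)

`prep`: the order of `c^m₀`, reduced data of all powers. `gen_of_good`: `Gen` from PEL.
`bounded_of_lH`: bounded `lH` gives bounded orders. `thin_mono`. `sum_facts`: the sums over `S`.
-/

namespace Pool.Agent.KDT.H11

open Polynomial NumberField H58Q Pool.Agent.SZT Pool.Agent.KDT

/-- The order of `c^m₀` and reduced data for all powers `c^(m₀ k)`. -/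
theorem prep (hREX : RexStatement) (hDED : UBT.DedStmt) (K : Type) [Field K] [CharZero K]
    (Y : UBT.OddCurve K) (hdeg : Y.f.natDegree = 5) (c : Y.Jac) (hc : IsOfFinOrder c) (m₀ : ℕ)
    (hm₀ : 0 < m₀) :
    ∃ (I : Ideal (Q K Y.f)) (N : ℕ) (A B : ℕ → K[X]), I ≠ ⊥ ∧ 0 < N ∧ orderOf c ≤ m₀ * N ∧
      (∀ j, (I ^ (m₀ * j)).IsPrincipal ↔ N ∣ j) ∧
      (∀ k, Mum Y.f (A k) (B k) ∧ (A k).natDegree ≤ 2 ∧
        SameCl (MI Y.f (A k) (B k)) (I ^ (m₀ * k))) ∧
      ∀ k, ((MI Y.f (A k) (B k)) ^ (2 * N)).IsPrincipal := by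
  haveI hded : IsDedekindDomain (Q K Y.f) := hDED K Y.f two_ne_zero Y.sqfree
  have hfin : IsOfFinOrder (c ^ m₀) := hc.pow
  have hNpos : 0 < orderOf (c ^ m₀) := orderOf_pos_iff.2 hfin
  have hpow : (c ^ m₀) ^ orderOf (c ^ m₀) = 1 := pow_orderOf_eq_one _
  have hle : orderOf c ≤ m₀ * orderOf (c ^ m₀) := by
    apply Nat.le_of_dvd (Nat.mul_pos hm₀ hNpos)
    apply orderOf_dvd_of_pow_eq_one
    rw [pow_mul]
    exact hpow
  have h2 : (2 : K) ≠ 0 := two_ne_zero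
  obtain ⟨A₁, B₁', hI, hmum, _, hcl⟩ := hREX K Y.f h2 Y.sqfree hdeg c
  have hclk : ∀ k : ℕ, ClassGroup.mk0 ((⟨MI Y.f A₁ B₁', hI⟩ :
      nonZeroDivisors (Ideal (Q K Y.f))) ^ k) = c ^ k := by
    intro k
    rw [map_pow, hcl]
  have hprin : ∀ k : ℕ, ((MI Y.f A₁ B₁') ^ k).IsPrincipal ↔ c ^ k = 1 := by
    intro k
    rw [← hclk k]
    exact (ClassGroup.mk0_eq_one_iff (I := (MI Y.f A₁ B₁') ^ k) (pow_mem hI k)).symm
  choose A B hA hAmum hAdeg hAcl using fun k : ℕ => hREX K Y.f h2 Y.sqfree hdeg (c ^ (m₀ * k))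
  have hsame : ∀ k, SameCl (MI Y.f (A k) (B k)) ((MI Y.f A₁ B₁') ^ (m₀ * k)) := by
    intro k
    have h3 := (hAcl k).trans (hclk (m₀ * k)).symm
    rw [ClassGroup.mk0_eq_mk0_iff] at h3
    obtain ⟨a, b, ha, hb, hab⟩ := h3
    exact ⟨a, b, ha, hb, hab⟩
  refine ⟨MI Y.f A₁ B₁', orderOf (c ^ m₀), A, B, nonZeroDivisors.ne_zero hI, hNpos, hle, ?_,
    fun k => ⟨hAmum k, hAdeg k, hsame k⟩, ?_⟩
  · intro j
    rw [hprin, pow_mul, orderOf_dvd_iff_pow_eq_one]
  · intro k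
    have h4 : ClassGroup.mk0 ((⟨MI Y.f (A k) (B k), hA k⟩ :
        nonZeroDivisors (Ideal (Q K Y.f))) ^ (2 * orderOf (c ^ m₀))) = 1 := by
      rw [map_pow, hAcl k, ← pow_mul,
        show m₀ * k * (2 * orderOf (c ^ m₀)) = m₀ * orderOf (c ^ m₀) * (2 * k) by ring, pow_mul,
        pow_mul c m₀, hpow, one_pow]
    exact (ClassGroup.mk0_eq_one_iff
      (I := (MI Y.f (A k) (B k)) ^ (2 * orderOf (c ^ m₀))) (pow_mem (hA k) _)).1 h4

/-- `Gen` from PEL with the exponent `2 N`. -/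
theorem gen_of_good (hPEL : PelStatement) (K : Type) [Field K] [CharZero K] (f A B : K[X]) (N : ℕ)
    (hsq : Squarefree f) (hdeg : f.natDegree = 5) (hg : Good f A B) (hN : 0 < N)
    (hp : ((MI f A B) ^ (2 * N)).IsPrincipal) : ∃ U W : K[X], Gen f A B U W (2 * N) := by
  obtain ⟨U, W, h1, h2, h3⟩ := hPEL K f A B (2 * N) two_ne_zero hsq hdeg hg (by omega) hp
  exact ⟨U, W, ⟨by omega, even_two_mul N, h1, h2, h3⟩⟩

/-- Bounded `lH` gives bounded orders. -/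
theorem bounded_of_lH (hDSH : DshStatement) (hGPR : GprStatement) (d : ℕ) (h₁ : ℝ) :
    ∃ B : ℕ, ∀ (K : Type) [Field K] [NumberField K], Module.finrank ℚ K ≤ d →
      ∀ (Y : UBT.OddCurve K), Y.f.Monic → Y.f.natDegree = 5 →
      (∀ n, IsIntegral ℤ (Y.f.coeff n)) → lH Y.f ≤ h₁ →
      ∀ c : Y.Jac, IsOfFinOrder c → orderOf c ≤ B := by
  obtain ⟨B, hB⟩ := hGPR d (Real.exp (20 * h₁))
  refine ⟨B, ?_⟩
  intro K _ _ hd Y hmon hdeg hint hl c hc
  obtain ⟨_, _, _, hnorm, _, _⟩ := hDSH K Y.f hmon hdeg Y.sqfree hint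
  exact hB K hd Y hmon hdeg hint (hnorm.trans (Real.exp_le_exp.2 (by linarith))) c hc

/-- `Thin` is monotone in the degree. -/
theorem thin_mono {K : Type} [Field K] (f : K[X]) {B B' : ℕ} (h : B ≤ B') (ht : Thin B f) :
    Thin B' f := by
  obtain ⟨F, i1, i2, φ, Y, i3, Γ, Ψ, h1, h2, h3, h4, h5⟩ := ht
  exact ⟨F, i1, i2, φ, Y, i3, Γ, Ψ, h1, h2, h3, h4.trans h, h5⟩

/-- Splitting a sum (from row FIN of SZT). -/
theorem sum_R {ι : Type} (S : Finset ι) (P : ι → Prop) [DecidablePred P] (l r : ι → ℝ) (n0 : ℝ)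
    (h1 : ∀ v ∈ S, P v → r v ≤ l v / n0) (h2 : ∀ v ∈ S, ¬ P v → r v ≤ l v) :
    ∑ v ∈ S, r v ≤ (∑ v ∈ S, l v - ∑ v ∈ S with P v, l v) + (∑ v ∈ S with P v, l v) / n0 := by
  rw [← Finset.sum_filter_add_sum_filter_not S P r, ← Finset.sum_filter_add_sum_filter_not S P l,
    Finset.sum_div]
  have e1 : ∑ v ∈ S with P v, r v ≤ ∑ v ∈ S with P v, l v / n0 := by
    apply Finset.sum_le_sum
    intro v hv
    rw [Finset.mem_filter] at hv
    exact h1 v hv.1 hv.2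
  have e2 : ∑ v ∈ S with ¬ P v, r v ≤ ∑ v ∈ S with ¬ P v, l v := by
    apply Finset.sum_le_sum
    intro v hv
    rw [Finset.mem_filter] at hv
    exact h2 v hv.1 hv.2
  linarith

/-- The sums over `S`: `T = ∑_S l_v`, `T' =` the part with `n_v > n₀`, `R = ∑_S log Nv`. -/
theorem sum_facts (hDSH : DshStatement) (hQVN : QvnStatement) (K : Type) [Field K]
    [NumberField K] (f : K[X]) (hmon : f.Monic) (hdeg : f.natDegree = 5) (hsq : Squarefree f)
    (hint : ∀ n, IsIntegral ℤ (f.coeff n)) (S : Finset (FinitePlace K))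
    (hS : ∀ v ∈ S, v (discr f) < 1) (n₀ : ℕ) (hn₀ : 0 < n₀) :
    0 ≤ lH f ∧
    (∑ v ∈ S, Real.log (Ideal.absNorm v.maximalIdeal.asIdeal)) ≤
      ((- ∑ v ∈ S, Real.log (v (discr f))) - (- ∑ v ∈ S with v (discr f) *
        (Ideal.absNorm v.maximalIdeal.asIdeal : ℝ) ^ n₀ < 1, Real.log (v (discr f)))) +
      (- ∑ v ∈ S with v (discr f) *
        (Ideal.absNorm v.maximalIdeal.asIdeal : ℝ) ^ n₀ < 1, Real.log (v (discr f))) / n₀ ∧
    0 ≤ (- ∑ v ∈ S with v (discr f) *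
        (Ideal.absNorm v.maximalIdeal.asIdeal : ℝ) ^ n₀ < 1, Real.log (v (discr f))) ∧
    (- ∑ v ∈ S with v (discr f) *
        (Ideal.absNorm v.maximalIdeal.asIdeal : ℝ) ^ n₀ < 1, Real.log (v (discr f))) ≤
      (- ∑ v ∈ S, Real.log (v (discr f))) ∧
    (- ∑ v ∈ S, Real.log (v (discr f))) ≤ 20 * lH f ∧
    (- ∑ v ∈ S, Real.log (v (discr f))) = (- ∑ v ∈ S with v (discr f) *
        (Ideal.absNorm v.maximalIdeal.asIdeal : ℝ) ^ n₀ < 1, Real.log (v (discr f))) +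
      (- ∑ v ∈ S with ¬ v (discr f) *
        (Ideal.absNorm v.maximalIdeal.asIdeal : ℝ) ^ n₀ < 1, Real.log (v (discr f))) := by
  classical
  obtain ⟨hD0, _, hh0, hnorm, hsum, _⟩ := hDSH K f hmon hdeg hsq hint
  have hl0 : ∀ v ∈ S, 0 < - Real.log (v (discr f)) := by
    intro v hv
    have h3 : 0 < v (discr f) := lt_of_le_of_ne (apply_nonneg v _)
      (Ne.symm ((map_ne_zero v).2 hD0))
    linarith [Real.log_neg h3 (hS v hv)]
  have hval : ∀ v ∈ S, ∃ n : ℕ, 0 < n ∧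
      v (discr f) * (Ideal.absNorm v.maximalIdeal.asIdeal : ℝ) ^ n = 1 :=
    fun v hv => hQVN K v _ hD0 (hS v hv)
  have hNv : ∀ v ∈ S, (1 : ℝ) ≤ (Ideal.absNorm v.maximalIdeal.asIdeal : ℝ) := by
    intro v hv
    obtain ⟨n, hn, h3⟩ := hval v hv
    have h4 : Ideal.absNorm v.maximalIdeal.asIdeal ≠ 0 := by
      intro h5
      rw [h5, Nat.cast_zero, zero_pow hn.ne', mul_zero] at h3
      exact zero_ne_one h3
    exact_mod_cast Nat.one_le_iff_ne_zero.2 h4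
  have hlog : ∀ v ∈ S, ∀ n : ℕ, 0 < n →
      v (discr f) * (Ideal.absNorm v.maximalIdeal.asIdeal : ℝ) ^ n = 1 →
      - Real.log (v (discr f)) = n * Real.log (Ideal.absNorm v.maximalIdeal.asIdeal) := by
    intro v hv n hn h3
    have h4 : 0 < v (discr f) := lt_of_le_of_ne (apply_nonneg v _)
      (Ne.symm ((map_ne_zero v).2 hD0))
    have h5 := congrArg Real.log h3
    have h6 : (0 : ℝ) < (Ideal.absNorm v.maximalIdeal.asIdeal : ℝ) :=
      lt_of_lt_of_le one_pos (hNv v hv)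
    rw [Real.log_mul h4.ne' (pow_pos h6 n).ne', Real.log_pow, Real.log_one] at h5
    linarith
  have hR := sum_R S (fun v => v (discr f) *
      (Ideal.absNorm v.maximalIdeal.asIdeal : ℝ) ^ n₀ < 1)
    (fun v => - Real.log (v (discr f)))
    (fun v => Real.log (Ideal.absNorm v.maximalIdeal.asIdeal)) (n₀ : ℝ)
    (by
      intro v hv hP
      obtain ⟨n, hn, h3⟩ := hval v hv
      have h4 : n₀ < n := by
        by_contra h5
        have h6 := pow_le_pow_right₀ (hNv v hv) (not_lt.1 h5)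
        have h7 := mul_le_mul_of_nonneg_left h6 (apply_nonneg v (discr f))
        linarith
      have h8 := hlog v hv n hn h3
      have h9 := Real.log_nonneg (hNv v hv)
      rw [le_div_iff₀ (by exact_mod_cast hn₀)]
      rw [h8]
      have h10 : (n₀ : ℝ) ≤ n := by exact_mod_cast h4.le
      nlinarith)
    (by
      intro v hv _
      obtain ⟨n, hn, h3⟩ := hval v hv
      have h8 := hlog v hv n hn h3
      have h9 := Real.log_nonneg (hNv v hv)
      have h10 : (1 : ℝ) ≤ n := by exact_mod_cast hn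
      show Real.log (Ideal.absNorm v.maximalIdeal.asIdeal) ≤ - Real.log (v (discr f))
      rw [h8]
      nlinarith)
  rw [Finset.sum_neg_distrib, Finset.sum_neg_distrib] at hR
  refine ⟨hh0, hR, ?_, ?_, hsum S, ?_⟩
  · rw [← Finset.sum_neg_distrib]
    apply Finset.sum_nonneg
    intro v hv
    exact (hl0 v (Finset.mem_filter.1 hv).1).le
  · rw [← Finset.sum_neg_distrib, ← Finset.sum_neg_distrib]
    apply Finset.sum_le_sum_of_subset_of_nonneg (Finset.filter_subset _ _)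
    intro v hv _
    exact (hl0 v hv).le
  · rw [← Finset.sum_filter_add_sum_filter_not S (fun v => v (discr f) *
      (Ideal.absNorm v.maximalIdeal.asIdeal : ℝ) ^ n₀ < 1)]
    ring

end Pool.Agent.KDT.H11
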