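import Pool.Agent.Helper11_KDT.KFA

set_option autoImplicit false

/-!
# Squad KDT (MP_160b6c_nt), row KFN: the assembly
-/

namespace Pool.Agent.KDT.H11

open Polynomial NumberField H58Q Pool.Agent.SZT Pool.Agent.KDT

/-- The arithmetic of case 1. -/
theorem kfn_num {h T T' R C ε n0 d' d κ : ℝ} (hε : 0 < ε) (hκ2 : 2 ≤ κ) (hκ : 48 / ε ≤ κ)
    (hn0 : 40 / ε ≤ n0) (h0 : 0 ≤ h) (hT' : 0 ≤ T') (hTT : T' ≤ T) (hT : T ≤ 20 * h)
    (hR : R ≤ (T - T') + T' / n0) (hC : 0 ≤ C) (hd : d' ≤ d)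
    (hmain : (100 + ε) * h ≤ R + 5 * T)
    (hglb : κ * (κ ^ 2 + 1) * T ≤ (50 * κ ^ 3 + 6 * κ ^ 2 + 40 * κ + 6) / 3 * h +
      (κ ^ 3 + 2 * κ) / 6 * T' + C * d') : h ≤ C * d := by
  have hn : 0 < n0 := lt_of_lt_of_le (by positivity) hn0
  have hκ0 : 0 < κ := by linarith
  have a1 : T' / n0 ≤ ε / 40 * (20 * h) := by
    rw [div_le_iff₀ hn]
    have h3 : 1 ≤ ε / 40 * n0 := by
      have h4 := mul_le_mul_of_nonneg_left hn0 (by positivity : 0 ≤ ε / 40)
      have h5 : ε / 40 * (40 / ε) = 1 := by field_simp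
      linarith
    have h6 : (20 * h) * 1 ≤ (20 * h) * (ε / 40 * n0) :=
      mul_le_mul_of_nonneg_left h3 (by linarith)
    calc T' ≤ 20 * h := hTT.trans hT
      _ = (20 * h) * 1 := by ring
      _ ≤ (20 * h) * (ε / 40 * n0) := h6
      _ = ε / 40 * (20 * h) * n0 := by ring
  have a2 : T' ≤ 6 * T + ε / 2 * h - (100 + ε) * h := by linarith
  have hβ : 0 ≤ (κ ^ 3 + 2 * κ) / 6 := by positivity
  have a3 := mul_le_mul_of_nonneg_left a2 hβ
  have a4 : κ * T ≤ κ * (20 * h) := mul_le_mul_of_nonneg_left hT hκ0.le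
  have a5 : 48 ≤ ε * κ := by
    have h4 := mul_le_mul_of_nonneg_left hκ hε.le
    have h5 : ε * (48 / ε) = 48 := by field_simp
    linarith
  have a6 : C * d' ≤ C * d := mul_le_mul_of_nonneg_left hd hC
  -- `(ε β / 2 - 2 κ² - 2) h ≤ C d`
  have a7 : (ε / 2 * ((κ ^ 3 + 2 * κ) / 6) - 2 * κ ^ 2 - 2) * h ≤ C * d := by nlinarith
  have a8 : 1 ≤ ε / 2 * ((κ ^ 3 + 2 * κ) / 6) - 2 * κ ^ 2 - 2 := by
    have h1 : κ ^ 2 * 48 ≤ κ ^ 2 * (ε * κ) := mul_le_mul_of_nonneg_left a5 (by positivity)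
    have h2 : 0 ≤ ε * κ := by positivity
    nlinarith
  have a9 := mul_le_mul_of_nonneg_right a8 h0
  linarith

/-- The polynomial of a combination of monomials. -/
noncomputable def cpol {K : Type} [Field K] (κ : ℕ) (c : Ex κ → K) : MvPolynomial (Fin 4) K :=
  ∑ e : Ex κ, MvPolynomial.monomial (Finsupp.equivFunOnFinite.symm e.1) (c e)

theorem cpol_eval₂ {K E : Type} [Field K] [Field E] (φ : K →+* E) (κ : ℕ) (c : Ex κ → K)
    (u : Fin 4 → E) : MvPolynomial.eval₂ φ u (cpol κ c) = ∑ e : Ex κ, φ (c e) * mon e.1 u := by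
  unfold cpol mon
  rw [MvPolynomial.eval₂_sum]
  apply Finset.sum_congr rfl
  intro e _
  rw [MvPolynomial.eval₂_monomial, Finsupp.prod_fintype _ _ (fun i => pow_zero _)]
  rfl

theorem cpol_eval {K : Type} [Field K] (κ : ℕ) (c : Ex κ → K) (u : Fin 4 → K) :
    MvPolynomial.eval u (cpol κ c) = ∑ e : Ex κ, c e * mon e.1 u := by
  have h := cpol_eval₂ (RingHom.id K) κ c u
  rw [MvPolynomial.eval, MvPolynomial.coe_eval₂Hom, h]
  rfl

theorem cpol_deg {K : Type} [Field K] (κ : ℕ) (c : Ex κ → K) : (cpol κ c).totalDegree ≤ κ := by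
  unfold cpol
  apply MvPolynomial.totalDegree_finsetSum_le
  intro e _
  refine (MvPolynomial.totalDegree_monomial_le _ _).trans ?_
  rw [Finsupp.sum_fintype _ _ (fun i => rfl)]
  have h := e.2
  unfold Ex at h
  rw [Finset.mem_filter] at h
  have h2 := h.2.1
  rw [Fin.sum_univ_four]
  simp only [Finsupp.equivFunOnFinite_symm_apply_apply, id]
  exact h2.le

theorem kfn (hGLB : GlbStatement) (hLMN : LmnStatement) (hINB : InbStatement)
    (hVGC : VgcStatement) (hZERO : ZeroStatement) (hPEL : PelStatement) (hREX : RexStatement)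
    (hDSH : DshStatement) (hQVN : QvnStatement) (hGPR : GprStatement) (hDED : UBT.DedStmt) :
    KdtStatement := by
  classical
  intro d ε hε
  obtain ⟨κ₀, hκ₀⟩ := exists_nat_ge (48 / ε)
  obtain ⟨n₀, hn₀⟩ := exists_nat_ge (40 / ε)
  have hn₀pos : 0 < n₀ := by
    rcases Nat.eq_zero_or_pos n₀ with h | h
    · rw [h, Nat.cast_zero] at hn₀
      exact absurd hn₀ (not_le.2 (by positivity))
    · exact h
  set κ : ℕ := κ₀ + 2 with hκdef
  have hκpos : 0 < κ := by omega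
  have hκ2 : (2 : ℝ) ≤ (κ : ℝ) := by exact_mod_cast (by omega : 2 ≤ κ)
  have hκε : 48 / ε ≤ (κ : ℝ) := hκ₀.trans (by exact_mod_cast (by omega : κ₀ ≤ κ))
  obtain ⟨Cc, hCc, hglb⟩ := hGLB κ hκpos
  obtain ⟨B₁, hB₁⟩ := bounded_of_lH hDSH hGPR d (Cc * d)
  obtain ⟨B₂, hB₂⟩ := hZERO (κ + 40)
  refine ⟨max (n₀.factorial * B₂) (max B₁ B₂), ?_⟩
  intro K _ _ hd Y hmon hdeg hint S hS hmain
  by_cases hthin : Thin (max (n₀.factorial * B₂) (max B₁ B₂)) Y.f
  · exact Or.inr hthin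
  left
  intro c hc
  have hm₀pos : 0 < n₀.factorial := Nat.factorial_pos n₀
  obtain ⟨I, N, A, B, hI, hN, hle, hprin, hred, hpow⟩ :=
    prep hREX hDED K Y hdeg c hc n₀.factorial hm₀pos
  have hprin' : ∀ j, ((I ^ n₀.factorial) ^ j).IsPrincipal ↔ N ∣ j := by
    intro j
    rw [← pow_mul]
    exact hprin j
  have hgen : ∀ k, VG Y.f (A k) (B k) → ∃ U W : K[X], Gen Y.f (A k) (B k) U W (2 * N) :=
    fun k hk => gen_of_good hPEL K Y.f (A k) (B k) N Y.sqfree hdeg hk.1 hN (hpow k)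
  by_cases hcase : ∀ r : Ex κ → {k : ℕ // k < N ∧ VG Y.f (A k) (B k)},
      (Matrix.of fun (j e : Ex κ) => mon e.1 (kum Y.f (A (r j).1) (B (r j).1))).det = 0
  · -- case 2: a polynomial
    obtain ⟨c₀, hc₀, hvan⟩ := hLMN K (Ex κ) {k : ℕ // k < N ∧ VG Y.f (A k) (B k)}
      (fun k e => mon e.1 (kum Y.f (A k.1) (B k.1))) hcase
    have hmem : N ≤ B₂ ∨ Thin B₂ Y.f := by
      refine hB₂ K Y.f hmon hdeg Y.sqfree (cpol κ c₀) ((cpol_deg κ c₀).trans (by omega)) ?_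
        (I ^ n₀.factorial) N (pow_ne_zero _ hI) hN hprin' ?_
      · obtain ⟨E, iE, φ, A', B', h1, h2, h3, h4⟩ := hINB K Y.f κ c₀ hmon hdeg Y.sqfree hc₀
        refine ⟨E, iE, φ, A', B', h1, h2, h3, ?_⟩
        rw [cpol_eval₂]
        exact h4
      · have hv := hVGC K Y.f (I ^ n₀.factorial) N A B hmon hdeg Y.sqfree (pow_ne_zero _ hI) hN
          hprin' (fun k => ⟨(hred k).1, (hred k).2.1, by rw [← pow_mul]; exact (hred k).2.2⟩)
        have hfin : ({k : ℕ | k < N ∧ ¬ VG Y.f (A k) (B k)}).Finite :=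
          (Set.finite_lt_nat N).subset (fun k hk => hk.1)
        have hsub : {j : ℕ | j < N ∧ ¬ ∃ A B : K[X], Mum Y.f A B ∧ A.natDegree = 2 ∧
            SameCl (MI Y.f A B) ((I ^ n₀.factorial) ^ j) ∧
              MvPolynomial.eval (kum Y.f A B) (cpol κ c₀) = 0} ⊆
            {k : ℕ | k < N ∧ ¬ VG Y.f (A k) (B k)} := by
          rintro j ⟨hj, hno⟩
          refine ⟨hj, fun hvg => hno ⟨A j, B j, (hred j).1, hvg.1.two, ?_, ?_⟩⟩
          · rw [← pow_mul]
            exact (hred j).2.2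
          · rw [cpol_eval]
            exact hvan ⟨j, hj, hvg⟩
        have hcard := Set.ncard_le_ncard hsub hfin
        have hcard' : (({j : ℕ | j < N ∧ ¬ ∃ A B : K[X], Mum Y.f A B ∧ A.natDegree = 2 ∧
            SameCl (MI Y.f A B) ((I ^ n₀.factorial) ^ j) ∧
              MvPolynomial.eval (kum Y.f A B) (cpol κ c₀) = 0}.ncard : ℕ) : ℝ) ≤
            (({k : ℕ | k < N ∧ ¬ VG Y.f (A k) (B k)}.ncard : ℕ) : ℝ) := by exact_mod_cast hcard
        refine hcard'.trans (hv.trans ?_)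
        apply mul_le_mul_of_nonneg_right _ (by positivity)
        push_cast
        have : (0 : ℝ) ≤ (κ : ℝ) := Nat.cast_nonneg _
        linarith
    rcases hmem with h | h
    · exact (hle.trans (Nat.mul_le_mul_left _ h)).trans (le_max_left _ _)
    · exact absurd (thin_mono Y.f ((le_max_right B₁ B₂).trans (le_max_right _ _)) h) hthin
  · -- case 1: a nonzero determinant
    push Not at hcase
    obtain ⟨r, hr⟩ := hcase
    choose U W hUW using fun j : Ex κ => hgen (r j).1 (r j).2.2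
    have h1 := hglb K Y.f n₀.factorial n₀ I (fun j => A (r j).1) (fun j => B (r j).1) U W
      (fun _ => 2 * N) (fun j => (r j).1) S hmon hdeg Y.sqfree hint hI
      (fun m h0 hm => Nat.dvd_factorial h0 hm) hS
      (fun j => ⟨(r j).2.2, (hred (r j).1).2.2⟩) hUW hr
    obtain ⟨hh0, hR, hT'0, hT'T, hT20, _⟩ := sum_facts hDSH hQVN K Y.f hmon hdeg Y.sqfree hint S
      (fun v hv => (hS v hv).2) n₀ hn₀pos
    have hmain' : (100 + ε) * lH Y.f ≤
        (∑ v ∈ S, Real.log (Ideal.absNorm v.maximalIdeal.asIdeal)) +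
          5 * (- ∑ v ∈ S, Real.log (v (discr Y.f))) := by
      rw [Finset.sum_add_distrib, ← Finset.mul_sum, Finset.sum_neg_distrib] at hmain
      exact hmain
    have hbound : lH Y.f ≤ Cc * d :=
      kfn_num (d' := Module.finrank ℚ K) (κ := κ) (n0 := n₀) hε hκ2 hκε hn₀ hh0 hT'0 hT'T hT20 hR
        hCc (by exact_mod_cast hd) hmain' h1
    exact (hB₁ K hd Y hmon hdeg hint hbound c hc).trans
      ((le_max_left B₁ B₂).trans (le_max_right _ _))

end Pool.Agent.KDT.H11
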