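import Pool.Agent.KDT.StmtsP

/-!
# KDT block Z, row SPL: specialisations exist (lying over)
-/

set_option autoImplicit false

namespace Pool.Agent.KDT.H11

open Pool.Agent.KDT.Z Polynomial

theorem ext_hom (k U : Type) [Field k] [IsAlgClosed k] [Field U] [Algebra k U]
    (B : Subalgebra k U) (χ : B →ₐ[k] k) :
    ∃ ψ : integralClosure B U →ₐ[k] k, ∀ b : B, ψ (algebraMap B (integralClosure B U) b) = χ b := by
  classical
  set A := integralClosure B U with hA
  have hinj : Function.Injective (algebraMap B A) := by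
    intro a b hab
    have h1 : ((algebraMap B A a : A) : U) = ((algebraMap B A b : A) : U) := by rw [hab]
    exact Subtype.ext h1
  let m0 : Ideal B := RingHom.ker (χ : B →+* k)
  haveI : m0.IsPrime := RingHom.ker_isPrime _
  have hbot : (⊥ : Ideal A).comap (algebraMap B A) ≤ m0 := by
    intro x hx
    rw [Ideal.mem_comap, Ideal.mem_bot] at hx
    have : x = 0 := hinj (by rw [hx, map_zero])
    rw [this]
    exact m0.zero_mem
  obtain ⟨Q, -, hQp, hQ⟩ := Ideal.exists_ideal_over_prime_of_isIntegral m0 (⊥ : Ideal A) hbot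
  haveI := hQp
  have hred : ∀ b : B, Ideal.Quotient.mk Q (algebraMap B A b) = algebraMap k (A ⧸ Q) (χ b) := by
    intro b
    have h1 : b - algebraMap k B (χ b) ∈ m0 := by
      rw [RingHom.mem_ker]
      simp
    rw [← hQ, Ideal.mem_comap, map_sub] at h1
    have h2 := Ideal.Quotient.eq.mpr h1
    rw [h2]
    rfl
  haveI : Algebra.IsIntegral k (A ⧸ Q) := by
    constructor
    intro x
    obtain ⟨a, rfl⟩ := Ideal.Quotient.mk_surjective x
    obtain ⟨P, hPm, hP⟩ : IsIntegral B a := Algebra.IsIntegral.isIntegral a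
    refine ⟨P.map (χ : B →+* k), hPm.map _, ?_⟩
    rw [Polynomial.eval₂_map]
    have h1 : (algebraMap k (A ⧸ Q)).comp (χ : B →+* k) =
        (Ideal.Quotient.mk Q).comp (algebraMap B A) := by
      ext b
      exact (hred b).symm
    rw [h1, ← Polynomial.hom_eval₂, hP, map_zero]
  let ψ0 : (A ⧸ Q) →ₐ[k] k := IsAlgClosed.lift
  refine ⟨ψ0.comp (Ideal.Quotient.mkₐ k Q), fun b => ?_⟩
  rw [AlgHom.comp_apply]
  have h1 : Ideal.Quotient.mkₐ k Q (algebraMap B A b) = algebraMap k (A ⧸ Q) (χ b) := hred b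
  rw [h1]
  simp

theorem zspl : SplStatement := by
  classical
  intro k U _ _ _ _ s p s0 p0 hsp v hv
  set B := Algebra.adjoin k ({s, p} : Set U) with hB
  have hrange : (MvPolynomial.aeval (R := k) ![s, p]).range = B := by
    rw [hB, ← Algebra.adjoin_range_eq_range_aeval]
    congr 1
    ext x
    simp only [Set.mem_range, Set.mem_insert_iff, Set.mem_singleton_iff]
    constructor
    · rintro ⟨i, rfl⟩
      fin_cases i <;> simp
    · rintro (rfl | rfl)
      · exact ⟨0, rfl⟩
      · exact ⟨1, rfl⟩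
  -- the map onto B
  have hmem : ∀ G : MvPolynomial (Fin 2) k, MvPolynomial.aeval ![s, p] G ∈ B := by
    intro G
    rw [← hrange]
    exact ⟨G, rfl⟩
  let φ : MvPolynomial (Fin 2) k →ₐ[k] B :=
    (MvPolynomial.aeval ![s, p]).codRestrict B hmem
  have hφ : ∀ G, ((φ G : B) : U) = MvPolynomial.aeval ![s, p] G := fun G => rfl
  have hsur : Function.Surjective φ := by
    intro b
    have h1 : (b : U) ∈ (MvPolynomial.aeval (R := k) ![s, p]).range := by
      rw [hrange]
      exact b.2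
    obtain ⟨G, hG⟩ := h1
    refine ⟨G, Subtype.ext ?_⟩
    rw [hφ]
    exact hG
  let e := Ideal.quotientKerAlgEquivOfSurjective hsur
  let χ0 : (MvPolynomial (Fin 2) k ⧸ RingHom.ker φ) →ₐ[k] k :=
    Ideal.Quotient.liftₐ (RingHom.ker φ) (MvPolynomial.aeval ![s0, p0]) (by
      intro G hG
      rw [RingHom.mem_ker] at hG
      have h1 : Zr G s p := by
        have h2 := congrArg (fun b : B => (b : U)) hG
        exact h2
      have h3 := hsp G h1
      rw [← h3]
      rfl)
  let χ : B →ₐ[k] k := χ0.comp (e.symm : B →ₐ[k] _)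
  have hχ : ∀ G, χ (φ G) = MvPolynomial.eval ![s0, p0] G := by
    intro G
    have h1 : e.symm (φ G) = Ideal.Quotient.mk _ G := by
      rw [AlgEquiv.symm_apply_eq]
      rfl
    show χ0 (e.symm (φ G)) = _
    rw [h1]
    rfl
  obtain ⟨ψ, hψ⟩ := ext_hom k U B χ
  have hva : ∀ i, v i ∈ integralClosure B U := hv
  have hsB : s ∈ B := Algebra.subset_adjoin (by simp)
  have hpB : p ∈ B := Algebra.subset_adjoin (by simp)
  let sA : integralClosure B U := algebraMap B _ ⟨s, hsB⟩
  let pA' : integralClosure B U := algebraMap B _ ⟨p, hpB⟩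
  have hχs : χ ⟨s, hsB⟩ = s0 := by
    have h1 : φ (MvPolynomial.X 0) = ⟨s, hsB⟩ := Subtype.ext (by rw [hφ]; simp)
    rw [← h1, hχ]
    simp
  have hχp : χ ⟨p, hpB⟩ = p0 := by
    have h1 : φ (MvPolynomial.X 1) = ⟨p, hpB⟩ := Subtype.ext (by rw [hφ]; simp)
    rw [← h1, hχ]
    simp
  refine ⟨fun i => ψ ⟨v i, hva i⟩, fun G hG => ?_⟩
  let x : Fin 6 → integralClosure B U := ![sA, pA', ⟨v 0, hva 0⟩, ⟨v 1, hva 1⟩, ⟨v 2, hva 2⟩,
    ⟨v 3, hva 3⟩]
  let ι : integralClosure B U →ₐ[k] U :=
    { (integralClosure B U).val.toRingHom with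
      commutes' := fun r => rfl }
  have hx : MvPolynomial.aeval x G = 0 := by
    have h1 : ι (MvPolynomial.aeval x G) = 0 := by
      rw [MvPolynomial.comp_aeval_apply]
      rw [← hG]
      have e1 : (fun i => ι (x i)) = ![s, p, v 0, v 1, v 2, v 3] := by
        funext i
        fin_cases i <;> rfl
      rw [e1]
    exact Subtype.ext h1
  have h2 := congrArg ψ hx
  rw [map_zero, MvPolynomial.comp_aeval_apply] at h2
  have e2 : (fun i => ψ (x i)) = ![s0, p0, ψ ⟨v 0, hva 0⟩, ψ ⟨v 1, hva 1⟩, ψ ⟨v 2, hva 2⟩,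
      ψ ⟨v 3, hva 3⟩] := by
    funext i
    fin_cases i
    · exact (hψ _).trans hχs
    · exact (hψ _).trans hχp
    all_goals rfl
  rw [e2] at h2
  rw [← h2]
  rfl

end Pool.Agent.KDT.H11
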