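import Pool.Agent.KDT.StmtsM

/-!
# KDT block Z, row TWO: 2-torsion
-/

set_option autoImplicit false

namespace Pool.Agent.KDT.H11

open Pool.Agent.KDT.Z Polynomial

section

variable {F : Type} [Field F] {f : F[X]} {J : Type} [AddCommGroup J] {th : Pt f → J}
  {cl : (Fin 4 → F) → J}

theorem two_tors [IsAlgClosed F] [CharZero F] (hd : f.natDegree = 5) (hJ : JG f J th cl) :
    ∃ S : Finset J, S.card ≤ 31 ∧ ∀ v : J, v + v = 0 → v ∈ S := by
  classical
  have hf0 : f ≠ 0 := by
    intro h
    rw [h] at hd
    simp at hd
  set R : Finset F := f.roots.toFinset with hR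
  have hRc : R.card ≤ 5 := by
    calc R.card ≤ Multiset.card f.roots := Multiset.toFinset_card_le _
      _ ≤ f.natDegree := Polynomial.card_roots' f
      _ = 5 := hd
  have hRm : ∀ a, f.eval a = 0 → a ∈ R := by
    intro a ha
    rw [hR, Multiset.mem_toFinset, Polynomial.mem_roots hf0]
    exact ha
  let tt : F → J := fun a => if h : f.eval a = 0 then th ⟨a, 0, by rw [h]; ring⟩ else 0
  let S : Finset J := insert 0 (R.image tt ∪
    (R ×ˢ R).image (fun ab => cl ![ab.1 + ab.2, ab.1 * ab.2, 0, 0]))
  refine ⟨S, ?_, ?_⟩
  · have h1 : (R.image tt).card ≤ 5 := le_trans Finset.card_image_le hRc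
    have h2 : ((R ×ˢ R).image
        (fun ab : F × F => cl ![ab.1 + ab.2, ab.1 * ab.2, 0, 0])).card ≤ 25 := by
      refine le_trans Finset.card_image_le ?_
      rw [Finset.card_product]
      calc R.card * R.card ≤ 5 * 5 := Nat.mul_le_mul hRc hRc
        _ = 25 := rfl
    have h3 := Finset.card_union_le (R.image tt)
      ((R ×ˢ R).image (fun ab : F × F => cl ![ab.1 + ab.2, ab.1 * ab.2, 0, 0]))
    have h4 := Finset.card_insert_le (0 : J) (R.image tt ∪
      (R ×ˢ R).image (fun ab : F × F => cl ![ab.1 + ab.2, ab.1 * ab.2, 0, 0]))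
    show (insert 0 _ : Finset J).card ≤ 31
    omega
  · intro v hv
    have hneg : v = -v := eq_neg_of_add_eq_zero_left hv
    rcases hJ.cover v with h | ⟨z, hz⟩ | ⟨q, hq, hvq⟩
    · rw [h]
      exact Finset.mem_insert_self _ _
    · have h1 : th z = th z.neg := by
        rw [hJ.th_neg, ← hz]
        exact hneg
      have h2 := hJ.th_inj _ _ h1
      have h3 : z.b = -z.b := by
        have := congrArg Pt.b h2
        exact this
      have h4 : z.b = 0 := by
        have h5 : (2 : F) * z.b = 0 := by linear_combination h3
        rcases mul_eq_zero.mp h5 with h | h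
        · exact absurd h two_ne_zero
        · exact h
      have h5 : f.eval z.a = 0 := by
        rw [← z.on, h4]; ring
      have h6 : tt z.a = v := by
        show (if h : f.eval z.a = 0 then th ⟨z.a, 0, by rw [h]; ring⟩ else 0) = v
        rw [dif_pos h5, hz]
        congr 1
        cases z with
        | mk a b on =>
          simp only at h4
          subst h4
          rfl
      apply Finset.mem_insert_of_mem
      apply Finset.mem_union_left
      rw [Finset.mem_image]
      exact ⟨z.a, hRm _ h5, h6⟩
    · obtain ⟨hon, hcl⟩ := hJ.cl_ngv q hq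
      have h1 : cl q = cl (ngv q) := by
        rw [hcl, ← hvq]
        exact hneg
      have h2 := hJ.cl_inj q (ngv q) hq hon h1
      have h3 : q 2 = 0 := by
        have h4 : q 2 = - q 2 := congrFun h2 2
        have h5 : (2 : F) * q 2 = 0 := by linear_combination h4
        rcases mul_eq_zero.mp h5 with h | h
        · exact absurd h two_ne_zero
        · exact h
      have h3' : q 3 = 0 := by
        have h4 : q 3 = - q 3 := congrFun h2 3
        have h5 : (2 : F) * q 3 = 0 := by linear_combination h4
        rcases mul_eq_zero.mp h5 with h | h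
        · exact absurd h two_ne_zero
        · exact h
      have h4 : pA q ∣ f := by
        have h5 : pA q ∣ pB q ^ 2 - f := hq
        have h6 : pB q = 0 := by
          unfold pB
          rw [h3, h3']
          simp
        rw [h6] at h5
        have h7 : (0 : F[X]) ^ 2 - f = -f := by ring
        rw [h7, dvd_neg] at h5
        exact h5
      -- roots of pA
      obtain ⟨a, ha⟩ : ∃ a, (pA q).eval a = 0 := by
        have hdeg : (pA q).degree ≠ 0 := by
          have h5 : pA q = C 1 * X ^ 2 + C (-q 0) * X + C (q 1) := by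
            unfold pA
            simp
            ring
          rw [h5, Polynomial.degree_quadratic one_ne_zero]
          decide
        obtain ⟨a, ha⟩ := IsAlgClosed.exists_root (pA q) hdeg
        exact ⟨a, ha⟩
      have hpa : ∀ x, (pA q).eval x = x ^ 2 - q 0 * x + q 1 := by
        intro x
        unfold pA
        simp
      set b := q 0 - a with hb
      have hb0 : (pA q).eval b = 0 := by
        rw [hpa] at ha ⊢
        rw [hb]
        linear_combination ha
      have hfa : f.eval a = 0 := by
        obtain ⟨g, hg⟩ := h4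
        rw [hg, Polynomial.eval_mul, ha, zero_mul]
      have hfb : f.eval b = 0 := by
        obtain ⟨g, hg⟩ := h4
        rw [hg, Polynomial.eval_mul, hb0, zero_mul]
      apply Finset.mem_insert_of_mem
      apply Finset.mem_union_right
      rw [Finset.mem_image]
      refine ⟨(a, b), ?_, ?_⟩
      · rw [Finset.mem_product]
        exact ⟨hRm _ hfa, hRm _ hfb⟩
      · rw [hvq]
        congr 1
        funext i
        fin_cases i
        · show a + b = q 0
          rw [hb]; ring
        · show a * b = q 1
          rw [hpa] at ha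
          rw [hb]
          linear_combination -ha
        · exact h3.symm
        · exact h3'.symm

theorem ztwo_aux {m N : ℕ} (h : m * m - m ≤ 2 * (N * 31)) : m ≤ 8 * Nat.sqrt N + 9 := by
  by_contra hc
  have h1 : 8 * Nat.sqrt N + 10 ≤ m := by omega
  have h2 : N < (Nat.sqrt N + 1) * (Nat.sqrt N + 1) := Nat.lt_succ_sqrt N
  set s := Nat.sqrt N with hs
  obtain ⟨t, ht⟩ : ∃ t, m = t + 1 := ⟨m - 1, by omega⟩
  have h3 : 8 * s + 9 ≤ t := by omega
  have h4 : m * m - m = t * (t + 1) := by
    rw [ht]
    have : (t + 1) * (t + 1) = t * (t + 1) + (t + 1) := by ring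
    omega
  rw [h4] at h
  have h5 : (8 * s + 9) * (8 * s + 9) ≤ t * (t + 1) := Nat.mul_le_mul h3 (by omega)
  nlinarith

end

theorem ztwo : TwoStatement := by
  classical
  intro F _ _ _ f J _ th cl hd hJ
  obtain ⟨Tf, hTc, hT⟩ := two_tors hd hJ
  have hsub : {v : J | v + v = 0} ⊆ (Tf : Set J) := fun v hv => hT v hv
  refine ⟨⟨Tf.finite_toSet.subset hsub, ?_⟩, ?_⟩
  · calc {v : J | v + v = 0}.ncard ≤ (Tf : Set J).ncard := Set.ncard_le_ncard hsub Tf.finite_toSet
      _ = Tf.card := Set.ncard_coe_finset Tf
      _ ≤ 31 := hTc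
  · intro H hH c
    have hHf : (H : Set J).Finite := Set.toFinite _
    set Hf : Finset J := hHf.toFinset with hHfd
    have hHm : ∀ x, x ∈ Hf ↔ x ∈ H := by
      intro x
      rw [hHfd, Set.Finite.mem_toFinset]
      rfl
    have hHc : Hf.card = Nat.card H := by
      rw [hHfd, ← Set.ncard_eq_toFinset_card _ hHf]
      exact Nat.card_coe_set_eq _ |>.symm
    set M : Set J := {h : J | h ∈ H ∧ ∃ z, c + h = th z + th z} with hM
    have hMf : M.Finite := hHf.subset (fun x hx => hx.1)
    set Mf : Finset J := hMf.toFinset with hMfd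
    have hMm : ∀ x, x ∈ Mf ↔ x ∈ H ∧ ∃ z, c + x = th z + th z := by
      intro x
      rw [hMfd, Set.Finite.mem_toFinset]
      rfl
    have hMc : M.ncard = Mf.card := Set.ncard_eq_toFinset_card _ hMf
    rw [hMc, ← hHc]
    -- the points
    have hex : ∀ x ∈ Mf, ∃ z : Pt f, c + x = th z + th z := fun x hx => ((hMm x).mp hx).2
    by_cases hMe : Mf = ∅
    · rw [hMe]
      simp
    obtain ⟨x0, hx0⟩ := Finset.nonempty_iff_ne_empty.mpr hMe
    obtain ⟨z0, -⟩ := hex x0 hx0
    haveI : Inhabited (Pt f) := ⟨z0⟩
    let zf : J → Pt f := fun x => if h : ∃ z : Pt f, c + x = th z + th z then h.choose else z0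
    have hzf : ∀ x ∈ Mf, c + x = th (zf x) + th (zf x) := by
      intro x hx
      have h := hex x hx
      show c + x = th (if h : ∃ z : Pt f, c + x = th z + th z then h.choose else z0) +
        th (if h : ∃ z : Pt f, c + x = th z + th z then h.choose else z0)
      rw [dif_pos h]
      exact h.choose_spec
    let v0 : J → J := fun δ => if h : ∃ v : J, v + v = δ then h.choose else 0
    have hv0 : ∀ δ v : J, v + v = δ → v0 δ + v0 δ = δ := by
      intro δ v hv
      have h : ∃ v : J, v + v = δ := ⟨v, hv⟩
      show (if h : ∃ v : J, v + v = δ then h.choose else 0) +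
        (if h : ∃ v : J, v + v = δ then h.choose else 0) = δ
      rw [dif_pos h]
      exact h.choose_spec
    let Vf : Finset J := Hf.biUnion (fun δ => Tf.image (fun t => t + v0 δ))
    have hVc : Vf.card ≤ Hf.card * 31 := by
      refine Finset.card_biUnion_le_card_mul _ _ _ ?_
      intro δ _
      exact le_trans Finset.card_image_le hTc
    have hVm : ∀ v : J, v + v ∈ H → v ∈ Vf := by
      intro v hv
      rw [Finset.mem_biUnion]
      refine ⟨v + v, (hHm _).mpr hv, ?_⟩
      rw [Finset.mem_image]
      refine ⟨v - v0 (v + v), ?_, by abel⟩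
      apply hT
      have h1 := hv0 (v + v) v rfl
      have h2 : v - v0 (v + v) + (v - v0 (v + v)) = (v + v) - (v0 (v + v) + v0 (v + v)) := by abel
      rw [h2, h1, sub_self]
    let ψ : J × J → J := fun p => th (zf p.1) - th (zf p.2)
    have hinj : ∀ x ∈ Mf, ∀ y ∈ Mf, zf x = zf y → x = y := by
      intro x hx y hy h
      have h1 := hzf x hx
      have h2 := hzf y hy
      rw [h] at h1
      rw [← h2] at h1
      exact add_left_cancel h1
    have hmaps : ∀ p ∈ Mf.offDiag, ψ p ∈ Vf := by
      intro p hp
      rw [Finset.mem_offDiag] at hp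
      obtain ⟨h1, h2, -⟩ := hp
      apply hVm
      have h3 : ψ p + ψ p = p.1 - p.2 := by
        show th (zf p.1) - th (zf p.2) + (th (zf p.1) - th (zf p.2)) = _
        have h4 : th (zf p.1) - th (zf p.2) + (th (zf p.1) - th (zf p.2)) =
          (th (zf p.1) + th (zf p.1)) - (th (zf p.2) + th (zf p.2)) := by abel
        rw [h4, ← hzf _ h1, ← hzf _ h2]
        abel
      rw [h3]
      exact H.sub_mem ((hMm _).mp h1).1 ((hMm _).mp h2).1
    have hneginj : ∀ z w : Pt f, z.neg = w.neg → z = w := by
      intro z w h
      apply hJ.th_inj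
      have h1 := hJ.th_neg z
      have h2 := hJ.th_neg w
      rw [h, h2] at h1
      exact (neg_inj.mp h1).symm
    have hfib : ∀ b ∈ Vf, (Mf.offDiag.filter (fun p => ψ p = b)).card ≤ 2 := by
      intro b _
      by_cases hne : (Mf.offDiag.filter (fun p => ψ p = b)) = ∅
      · rw [hne]; simp
      · obtain ⟨p0, hp0⟩ := Finset.nonempty_iff_ne_empty.mpr hne
        rw [Finset.mem_filter, Finset.mem_offDiag] at hp0
        obtain ⟨⟨hp1, hp2, hp12⟩, hpb⟩ := hp0
        have hb0 : b ≠ 0 := by
          intro h
          rw [h] at hpb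
          have h1 : th (zf p0.1) = th (zf p0.2) := sub_eq_zero.mp hpb
          exact hp12 (hinj _ hp1 _ hp2 (hJ.th_inj _ _ h1))
        let q1 : J × J := (th (zf p0.2).neg + th (zf p0.2).neg - c,
          th (zf p0.1).neg + th (zf p0.1).neg - c)
        have hsub2 : (Mf.offDiag.filter (fun p => ψ p = b)) ⊆ {p0, q1} := by
          intro p hp
          rw [Finset.mem_filter, Finset.mem_offDiag] at hp
          obtain ⟨⟨h1, h2, h12⟩, hb⟩ := hp
          have e1 : th (zf p.1) + th (zf p.2).neg = b := by
            rw [hJ.th_neg, ← sub_eq_add_neg]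
            exact hb
          have e2 : th (zf p0.1) + th (zf p0.2).neg = b := by
            rw [hJ.th_neg, ← sub_eq_add_neg]
            exact hpb
          rw [Finset.mem_insert, Finset.mem_singleton]
          rcases hJ.th_pair _ _ _ _ (e1.trans e2.symm) (by rw [e1]; exact hb0) with
            ⟨g1, g2⟩ | ⟨g1, g2⟩
          · left
            exact Prod.ext (hinj _ h1 _ hp1 g1) (hinj _ h2 _ hp2 (hneginj _ _ g2))
          · right
            have k1 := hzf _ h1
            have k2 := hzf _ h2
            rw [g1] at k1
            have g3 : zf p.2 = (zf p0.1).neg := by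
              apply hJ.th_inj
              have := congrArg th g2
              rw [hJ.th_neg] at this
              rw [hJ.th_neg, ← this, neg_neg]
            rw [g3] at k2
            refine Prod.ext ?_ ?_
            · show p.1 = th (zf p0.2).neg + th (zf p0.2).neg - c
              rw [← k1]; abel
            · show p.2 = th (zf p0.1).neg + th (zf p0.1).neg - c
              rw [← k2]; abel
        exact le_trans (Finset.card_le_card hsub2) Finset.card_le_two
    have hfinal := Finset.card_le_mul_card_image_of_maps_to hmaps 2 hfib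
    rw [Finset.offDiag_card] at hfinal
    apply ztwo_aux
    calc Mf.card * Mf.card - Mf.card ≤ 2 * Vf.card := hfinal
      _ ≤ 2 * (Hf.card * 31) := Nat.mul_le_mul_left 2 hVc

end Pool.Agent.KDT.H11
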